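import Pool.Agent.V5helper13.LP.Four

set_option autoImplicit false

/-!
# The strong n-conjecture: an interval of limit points of the qualities

The quality of an admissible tuple `x` is `log max |x_j| / log rad (x_1 ⋯ x_n)`; the strong
n-conjecture (Q1) says that for each `n` the qualities are bounded. For every odd `n ≥ 5` every real
number in `[1 / n, 5 / 3]` is a limit point of the qualities of the admissible `n`-tuples, for every
even `n ≥ 6` every number in `[1 / n, 7 / 5]`, for `n = 4` every number in `[1 / 4, 1]`. No number
below `1 / n` is a limit point.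

Proof: a tuple `y` with a small radical `R`, height `H` and sum `c` (even) is joined with
`A, -(A + c)`, where `A` and `A + c` are squarefree and coprime to `y`, and `A` has a prescribed size
between `H ^ δ` and `H ^ (1 - δ)`: so the radical is `R A (A + c)`, and the quality takes each value
below that of `y`. Such an `A` is found by a sieve: `A` runs through a residue class modulo the
product of the primes up to a small multiple of `log H`. The tuples `y` are `-X ^ 5, (X - 2) ^ 5,
10 ((X - 1) ^ 2 + 1) ^ 2` with `c = 8` and `X` a power of `31`; the first four entries of the tuples of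
`MP_7ecdd4_nt.EvenLengths`; and `3 ^ e, 2 - 3 ^ e`. For the qualities below `1 / 2` all entries come
from the sieve.
-/

namespace Pool.Agent.Results.MP_7ecdd4_nt.LimitPoints

open Pool.Agent.V5helper13.LP

/-- `1` for `n = 4`, `5 / 3` for odd `n`, `7 / 5` for even `n ≠ 4`. -/
noncomputable def bound (n : ℕ) : ℝ := if n = 4 then 1 else if Odd n then 5 / 3 else 7 / 5

/-- **Limit points of the qualities in the strong n-conjecture.** -/
theorem result (n : ℕ) (hn : 4 ≤ n) :
    (∀ q : ℝ, 1 / (n : ℝ) ≤ q → q ≤ bound n → LimitPoint n q) ∧
    (∀ q : ℝ, q < 1 / (n : ℝ) → ¬ LimitPoint n q) := by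
  refine ⟨fun q h1 h2 => ?_, fun q h => not_below n (by omega) q h⟩
  unfold bound at h2
  split_ifs at h2 with h4 ho
  · subst h4
    exact four q (by exact_mod_cast h1) h2
  · exact odd_case n (by omega) ho q h1 h2
  · have he : Even n := Nat.not_odd_iff_even.1 ho
    have h6 : 6 ≤ n := by
      obtain ⟨t, ht⟩ := he
      omega
    exact even_case n h6 he q h1 h2

end Pool.Agent.Results.MP_7ecdd4_nt.LimitPoints
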