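import Pool.Agent.V5helper13.LP.Par

set_option autoImplicit false

/-!
# The strong n-conjecture is equivalent to the existence of gaps between the qualities

The quality of an admissible tuple `x` is `log max |x_j| / log rad (x_1 ⋯ x_n)`; the strong
n-conjecture (Q1) says that for each `n` the qualities are bounded.

(1) If for each `M < q` infinitely many admissible `n`-tuples have quality larger than `M`, then every
real number in `[1 / N, q]` is a limit point of the qualities of the admissible `N`-tuples for
`N = n + 4 + 2 k`, and, if `n` is even, for `N = n + 7 + 2 k`.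

(2) So Q1 holds for all `n` if and only if there are arbitrarily large odd `N` for which some single
real number `q ≥ 1 / N` is not a limit point: if the conjecture fails for one `n`, then the qualities
of the admissible `N`-tuples are dense in `[1 / N, ∞)` for all large odd `N`.

Proof: the tuple `x` together with `1, 1` (and `1, 1, -2`) is joined with `A, -(A + 2)`, where `A` and
`A + 2` are squarefree and coprime to `x`, and `A` has a prescribed size between `H ^ δ` and
`H ^ (1 - δ)`, `H` the height of `x`. Such an `A` is found by a sieve: `A` runs through a residue class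
modulo the product of the primes up to a small multiple of `log H`.
-/

namespace Pool.Agent.Results.MP_7ecdd4_nt.NoGaps

open Pool.Agent.V5helper13.LP

/-- **The strong n-conjecture and gaps between the qualities.** -/
theorem result :
    (∀ (n k : ℕ) (q : ℝ),
      (∀ M : ℝ, M < q → {x : Fin n → ℤ | Admissible x ∧
        (rad x : ℝ) ^ M < height x}.Infinite) → ∀ q' : ℝ, q' ≤ q →
      (1 / ((n + 4 + 2 * k : ℕ) : ℝ) ≤ q' → LimitPoint (n + 4 + 2 * k) q') ∧
      (Even n → 1 / ((n + 7 + 2 * k : ℕ) : ℝ) ≤ q' → LimitPoint (n + 7 + 2 * k) q')) ∧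
    ((∀ n : ℕ, 3 ≤ n → ∃ M : ℝ, ∀ x : Fin n → ℤ, Admissible x →
        ∀ j, |((x j : ℤ) : ℝ)| ≤ (rad x : ℝ) ^ M) ↔
      ∀ m : ℕ, ∃ n : ℕ, m ≤ n ∧ Odd n ∧ ∃ q : ℝ, 1 / (n : ℝ) ≤ q ∧ ¬ LimitPoint n q) :=
  ⟨fun n k q h q' hq' => ⟨fun h1 => dilution n k q h q' h1 hq',
      fun he h1 => dilution_even n k he q h q' h1 hq'⟩, q1_iff_odd⟩

end Pool.Agent.Results.MP_7ecdd4_nt.NoGaps
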