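import Pool.Agent.Results.MP_7ecdd4_nt.CountByRadicalSharp
import Pool.Agent.Results.MP_7ecdd4_nt.FewExceptions
import Pool.Agent.R482.ST.Vec

/-!
# The strong `n`-conjecture (and the weak abc conjecture) at all tuples near the vectors of a sequence

Let `f_m`, `m = 0, 1, 2, …`, be positive functions on `(a, ∞)`, `a ≥ 0`, such that `f_m(t) / t` is nondecreasing, and
such that the sequence `f_m(t)` has exponent of convergence at most `τ` for each `t > a`: for instance `f_m(t) = v_m t`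
(dilatations; `τ` is the exponent of convergence of `v_m > 0`, so `τ = 0` for `v_m = m!` or `2 ^ m`), `f_m(t) = t ^ (v_m)`
for exponents `v_m ≥ 1` (`τ = 0`), or the orbits `f_m(t) = g (g (⋯ g (t)))` of a map `g` with `g(t) > t` and `g(t) / t`
nondecreasing (`τ = 0`). Let `k ≥ 2`. For a vector `u` in `ℝ^k`, `|u| > a`, we consider ALL integral vectors `z` at a distance
at most `c r ^ θ` from `(r / |u|) u`, `r = f_m(|u|)`, for which the `k + 1` integers `x = (z_1, …, z_k, -(z_1 + ⋯ + z_k))` are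
nonzero and pairwise coprime (`k = 2`: the abc triples).

**Theorem.** Let `θ < 1`.

1. For all `u`, `|u| > a`, outside a set of Hausdorff dimension at most `τ / (1 - θ)`, and for almost all `u` if
   `θ < 1 - τ / k`, there is for every `c` an `M` such that ALL these tuples, for all `m`, satisfy
   `max |x_j| ≤ rad (x_1 ⋯ x_(k+1)) ^ M`.
2. For a given `M ≥ M₀` this holds for all these tuples with `m` large (in terms of `c`), for all `u`, `|u| > a`, outside a set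
   of dimension at most `(κ / M + τ) / (1 - θ)`, and for almost all `u` if `θ < 1 - (κ / M + τ) / k`. Here `κ = 2 / 3`, `M₀ = 1` for
   `k = 2`, and `κ = (3 k - 2) / (3 k + 1)`, `M₀ = 10 / (3 k + 1) ≤ 1` for `k ≥ 3`.

The windows contain about `r ^ (k θ)` vectors. For a fixed `u` and, say, `f_m(t) = m! t`, these are very few tuples, not seen by
the number of the exceptional tuples up to a given height.

Proof. The number of the tuples with `max |x_j| ≤ T`, `rad ^ M < max |x_j|`, is `O(T ^ (κ / M + ε))` by `CountByRadicalSharp`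
(`k = 2`) and `FewExceptions` (`k ≥ 3`), and a thin set of integral vectors is seen in the windows of few `u`
(`Pool.Agent.R482.ST`).
-/

set_option autoImplicit false

namespace Pool.Agent.Results.MP_7ecdd4_nt.StarshapedTuples

open MeasureTheory
open Pool.Agent.Results.MP_7ecdd4_nt.CountByRadicalSharp (Admissible radical Tuples)

/-- the functions `f m` are positive on `(a, ∞)`, `a ≥ 0`, and `f m x / x` is nondecreasing there -/
def Starshaped (a : ℝ) (f : ℕ → ℝ → ℝ) : Prop :=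
  0 ≤ a ∧ ∀ m : ℕ, ∀ x y : ℝ, a < x → x ≤ y → 0 < f m x ∧ f m x / x ≤ f m y / y

/-- for each `x > a` the exponent of convergence of the sequence `f m x` is at most `τ` -/
def ExpLe (a : ℝ) (f : ℕ → ℝ → ℝ) (τ : ℝ) : Prop :=
  ∀ x : ℝ, a < x → ∀ t : ℝ, τ < t → Summable (fun m : ℕ => (f m x) ^ (-t))

/-- the tuple `(z_1, …, z_k, -(z_1 + ⋯ + z_k))` -/
def complete {k : ℕ} (z : Fin k → ℤ) : Fin (k + 1) → ℤ := Fin.snoc (α := fun _ => ℤ) z (-∑ i, z i)

/-- the inequality `max |x_j| ≤ rad (x_1 ⋯ x_n) ^ M` -/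
def Holds {n : ℕ} (M : ℝ) (x : Fin n → ℤ) : Prop := ∀ j, |(x j : ℝ)| ≤ (radical x : ℝ) ^ M

/-- `z` is at a distance (in the maximum norm) at most `c r ^ θ` from `(r / ‖u‖) u`, `r = f_m(‖u‖)` -/
def Near {k : ℕ} (f : ℕ → ℝ → ℝ) (u : Fin k → ℝ) (θ c : ℝ) (m : ℕ) (z : Fin k → ℤ) : Prop :=
  ∀ i, |(z i : ℝ) - f m ‖u‖ / ‖u‖ * u i| ≤ c * (f m ‖u‖) ^ θ

/-- for some `M` the inequality holds for all admissible tuples near the vectors, for all `m` -/
def AllHold {k : ℕ} (f : ℕ → ℝ → ℝ) (u : Fin k → ℝ) (θ c : ℝ) : Prop :=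
  ∃ M : ℝ, ∀ (m : ℕ) (z : Fin k → ℤ), Admissible (complete z) → Near f u θ c m z → Holds M (complete z)

/-- the inequality with the exponent `M` holds for all admissible tuples near the vectors, for all large `m` -/
def LargeHold {k : ℕ} (f : ℕ → ℝ → ℝ) (u : Fin k → ℝ) (M θ c : ℝ) : Prop :=
  ∃ m₀ : ℕ, ∀ m : ℕ, m₀ ≤ m → ∀ z : Fin k → ℤ, Admissible (complete z) → Near f u θ c m z → Holds M (complete z)

section basic

variable {n k : ℕ}

lemma radical_pos (x : Fin n → ℤ) : 0 < radical x :=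
  Finset.prod_pos fun _ hp => (Nat.prime_of_mem_primeFactors hp).pos

lemma one_le_rad (x : Fin n → ℤ) : (1 : ℝ) ≤ (radical x : ℝ) := by exact_mod_cast radical_pos x

lemma holds_mono {x : Fin n → ℤ} {M M' : ℝ} (h : Holds M x) (hM : M ≤ M') : Holds M' x := fun j =>
  (h j).trans (Real.rpow_le_rpow_of_exponent_le (one_le_rad x) hM)

/-- every tuple of nonzero integers satisfies the inequality with some exponent -/
lemma exists_holds {x : Fin n → ℤ} (h0 : ∀ i, x i ≠ 0) : ∃ M : ℝ, Holds M x := by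
  rcases Nat.lt_or_ge (radical x) 2 with hr | hr
  · refine ⟨0, fun i => ?_⟩
    have hp0 : (∏ i, x i).natAbs ≠ 0 := by
      rw [Int.natAbs_ne_zero]
      exact Finset.prod_ne_zero_iff.2 fun i _ => h0 i
    have h1 : (∏ i, x i).natAbs = 1 := by
      by_contra hne
      obtain ⟨p, hp, hpd⟩ := Nat.exists_prime_and_dvd hne
      have hmem : p ∈ (∏ i, x i).natAbs.primeFactors := Nat.mem_primeFactors.2 ⟨hp, hpd, hp0⟩
      have h2 : p ≤ radical x := Nat.le_of_dvd (radical_pos x) (Finset.dvd_prod_of_mem (fun p => p) hmem)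
      have := hp.two_le
      omega
    have h2 : (x i).natAbs ∣ 1 := by
      rw [← h1]
      exact Int.natAbs_dvd_natAbs.2 (Finset.dvd_prod_of_mem _ (Finset.mem_univ i))
    have h3 : (x i).natAbs = 1 := Nat.dvd_one.1 h2
    have h4 : |x i| = 1 := by
      rw [Int.abs_eq_natAbs, h3]
      rfl
    rw [Real.rpow_zero, ← Int.cast_abs, h4]
    simp
  · have h2 : (2 : ℝ) ≤ (radical x : ℝ) := by exact_mod_cast hr
    have key : ∀ i, |(x i : ℝ)| ≤ (radical x : ℝ) ^ (∑ j, |(x j : ℝ)|) := by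
      intro i
      have h3 : |(x i : ℝ)| ≤ ∑ j, |(x j : ℝ)| :=
        Finset.single_le_sum (f := fun j => |(x j : ℝ)|) (fun j _ => abs_nonneg _) (Finset.mem_univ i)
      set s := ∑ j, |(x j : ℝ)| with hs
      have hs0 : 0 ≤ s := (abs_nonneg _).trans h3
      have h4 : s ≤ (2 : ℝ) ^ s := by
        have h5 : s * Real.log 2 + 1 ≤ Real.exp (s * Real.log 2) := Real.add_one_le_exp _
        have h6 : (2 : ℝ) ^ s = Real.exp (s * Real.log 2) := by
          rw [Real.rpow_def_of_pos two_pos, mul_comm]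
        have h7 : (2 : ℝ) ^ s = ((2 : ℝ) ^ (s / 2)) ^ 2 := by
          rw [← Real.rpow_natCast, ← Real.rpow_mul two_pos.le]
          congr 1
          push_cast
          ring
        have h8 : s / 2 * Real.log 2 + 1 ≤ (2 : ℝ) ^ (s / 2) := by
          have := Real.add_one_le_exp (s / 2 * Real.log 2)
          rwa [Real.rpow_def_of_pos two_pos, mul_comm (Real.log 2)]
        have h9 : (0.69 : ℝ) < Real.log 2 := by linarith [Real.log_two_gt_d9]
        rw [h7]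
        have h10 : s / 2 * 0.69 + 1 ≤ (2 : ℝ) ^ (s / 2) := by nlinarith
        nlinarith [mul_self_nonneg (s / 2 * 0.69 - 1)]
      exact h3.trans (h4.trans (Real.rpow_le_rpow two_pos.le h2 hs0))
    exact ⟨_, key⟩

/-- a finite set of tuples of nonzero integers -/
lemma finite_holds {S : Set (Fin k → ℤ)} (hS : S.Finite) :
    ∃ M : ℝ, ∀ z ∈ S, Admissible (complete z) → Holds M (complete z) := by
  have h1 : ∀ z : Fin k → ℤ, ∃ M : ℝ, Admissible (complete z) → Holds M (complete z) := by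
    intro z
    by_cases hz : Admissible (complete z)
    · obtain ⟨M, hM⟩ := exists_holds hz.1
      exact ⟨M, fun _ => hM⟩
    · exact ⟨0, fun h => absurd h hz⟩
  choose M hM using h1
  obtain ⟨B, hB⟩ := (hS.image M).bddAbove
  exact ⟨B, fun z hz ha => holds_mono (hM z ha) (hB ⟨z, hz, rfl⟩)⟩

/-- the exceptional vectors -/
def Bad (M : ℝ) (z : Fin k → ℤ) : Prop := Admissible (complete z) ∧ ¬ Holds M (complete z)

lemma complete_castSucc (z : Fin k → ℤ) (i : Fin k) : complete z i.castSucc = z i := by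
  unfold complete
  exact Fin.snoc_castSucc (α := fun _ => ℤ) _ _ _

lemma complete_inj : Function.Injective (complete (k := k)) := by
  intro z w h
  funext i
  rw [← complete_castSucc z i, ← complete_castSucc w i, h]

lemma complete_le (hk : 1 ≤ k) {z : Fin k → ℤ} {H : ℕ} (h : ∀ i, |z i| ≤ (H : ℤ)) (j : Fin (k + 1)) :
    |(complete z j : ℝ)| ≤ (k : ℝ) * H := by
  have hk1 : (1 : ℝ) ≤ k := by exact_mod_cast hk
  have hH : (0 : ℝ) ≤ H := Nat.cast_nonneg H
  have h' : ∀ i, |(z i : ℝ)| ≤ H := fun i => by exact_mod_cast h i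
  refine Fin.lastCases ?_ (fun i => ?_) j
  · have e : complete z (Fin.last k) = -∑ i, z i := by
      unfold complete
      exact Fin.snoc_last (α := fun _ => ℤ) _ _
    rw [e]
    push_cast
    rw [abs_neg]
    calc |∑ i, (z i : ℝ)| ≤ ∑ i, |(z i : ℝ)| := Finset.abs_sum_le_sum_abs _ _
      _ ≤ ∑ _i : Fin k, (H : ℝ) := Finset.sum_le_sum fun i _ => h' i
      _ = (k : ℝ) * H := by simp
  · rw [complete_castSucc]
    exact (h' i).trans (by nlinarith)

end basic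

/-- the number of the exceptional vectors -/
lemma count_radical {k : ℕ} (hk : 2 ≤ k) {M : ℝ} (hM : 1 ≤ M) (ε : ℝ) (hε : 0 < ε) : ∃ C : ℝ, ∀ H : ℕ, 1 ≤ H →
    ({z : Fin k → ℤ | (∀ i, |z i| ≤ (H : ℤ)) ∧ Bad M z}.ncard : ℝ) ≤
      C * (H : ℝ) ^ ((1 - 1 / ((k : ℝ) + 1)) / M + ε) := by
  have hM0 : 0 < M := by linarith
  have hk0 : (0 : ℝ) < k := by exact_mod_cast (by omega : 0 < k)
  obtain ⟨η, hη, C, hC0, hC⟩ := (CountByRadicalSharp.result (k + 1) (by omega)).1 (ε * M) (mul_pos hε hM0)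
  set e : ℝ := (((k + 1 : ℕ) : ℝ) - 1) / ((k + 1 : ℕ) : ℝ) + ε * M with he
  have hee : e / M = (1 - 1 / ((k : ℝ) + 1)) / M + ε := by
    rw [he]
    push_cast
    field_simp
  refine ⟨C * (((k : ℝ) ^ (e / M)) * Real.exp (M * e)), fun H hH => ?_⟩
  have hH1 : (1 : ℝ) ≤ H := by exact_mod_cast hH
  have hkH : (1 : ℝ) ≤ (k : ℝ) * H := by
    have : (2 : ℝ) ≤ k := by exact_mod_cast hk
    nlinarith
  have hkH0 : (0 : ℝ) < (k : ℝ) * H := by linarith
  set X : ℝ := ((k : ℝ) * H) ^ (1 / M) * Real.exp M with hX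
  have hX1 : 1 ≤ ((k : ℝ) * H) ^ (1 / M) := Real.one_le_rpow hkH (by positivity)
  have hX2 : ((k : ℝ) * H) ^ (1 / M) ≤ X := by
    rw [hX]
    have : 1 ≤ Real.exp M := Real.one_le_exp hM0.le
    nlinarith
  have hX3 : 1 ≤ X := hX1.trans hX2
  have hlog : Real.log X = Real.log ((k : ℝ) * H) / M + M := by
    rw [hX, Real.log_mul (by positivity) (Real.exp_pos _).ne', Real.log_exp, Real.log_rpow hkH0]
    ring
  have hl0 : 0 ≤ Real.log ((k : ℝ) * H) := Real.log_nonneg hkH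
  have hlX : M ≤ Real.log X := by
    rw [hlog]
    have : 0 ≤ Real.log ((k : ℝ) * H) / M := div_nonneg hl0 hM0.le
    linarith
  have hbig : (k : ℝ) * H ≤ Real.exp ((1 + Real.log X) ^ (2 + η)) := by
    rw [← Real.log_le_iff_le_exp hkH0]
    have h1 : (1 + Real.log X) ^ (2 : ℝ) ≤ (1 + Real.log X) ^ (2 + η) :=
      Real.rpow_le_rpow_of_exponent_le (by linarith) (by linarith)
    rw [Real.rpow_two] at h1
    have h2 : Real.log ((k : ℝ) * H) ≤ M * Real.log X := by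
      rw [hlog, mul_add, mul_div_cancel₀ _ hM0.ne']
      nlinarith
    nlinarith
  obtain ⟨hfin, hcard⟩ := hC X hX3
  have hmaps : ∀ z ∈ {z : Fin k → ℤ | (∀ i, |z i| ≤ (H : ℤ)) ∧ Bad M z},
      complete z ∈ Tuples (k + 1) X (Real.exp ((1 + Real.log X) ^ (2 + η))) := by
    rintro z ⟨hz, ha, hb⟩
    refine ⟨ha, ?_, fun i => (complete_le (by omega) hz i).trans hbig⟩
    unfold Holds at hb
    push Not at hb
    obtain ⟨j, hj⟩ := hb
    have h1 : ((radical (complete z) : ℝ)) ^ M < (k : ℝ) * H := hj.trans_le (complete_le (by omega) hz j)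
    have h2 : (radical (complete z) : ℝ) = (((radical (complete z) : ℝ)) ^ M) ^ (1 / M) := by
      rw [← Real.rpow_mul (by positivity), mul_one_div, div_self hM0.ne', Real.rpow_one]
    rw [h2]
    refine (Real.rpow_le_rpow (by positivity) h1.le (by positivity)).trans hX2
  have h3 := Set.ncard_le_ncard_of_injOn (fun z => complete z) hmaps (complete_inj.injOn) hfin
  calc ({z : Fin k → ℤ | (∀ i, |z i| ≤ (H : ℤ)) ∧ Bad M z}.ncard : ℝ)
      ≤ ((Tuples (k + 1) X (Real.exp ((1 + Real.log X) ^ (2 + η)))).ncard : ℝ) := Nat.cast_le.2 h3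
    _ ≤ C * X ^ e := hcard
    _ = C * (((k : ℝ) ^ (e / M)) * Real.exp (M * e)) * (H : ℝ) ^ ((1 - 1 / ((k : ℝ) + 1)) / M + ε) := by
      rw [← hee, hX, Real.mul_rpow (by positivity) (Real.exp_pos _).le, ← Real.rpow_mul hkH0.le,
        Real.mul_rpow hk0.le (by positivity), ← Real.exp_mul]
      have : 1 / M * e = e / M := by ring
      rw [this]
      ring

/-- the exponent of the number of the exceptional tuples: `2 / 3` for triples, `(3 n - 5) / (3 n - 2)` for `n = k + 1 ≥ 4` -/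
noncomputable def κ (k : ℕ) : ℝ := if k = 2 then 2 / 3 else (3 * (k : ℝ) - 2) / (3 * (k : ℝ) + 1)

/-- the smallest exponent: `1` for triples, `10 / (3 n - 2)` for `n = k + 1 ≥ 4` -/
noncomputable def M₀ (k : ℕ) : ℝ := if k = 2 then 1 else 10 / (3 * (k : ℝ) + 1)

lemma κ_nonneg {k : ℕ} (hk : 2 ≤ k) : 0 ≤ κ k := by
  unfold κ
  have h2 : (2 : ℝ) ≤ k := by exact_mod_cast hk
  split_ifs
  · norm_num
  · exact div_nonneg (by linarith) (by linarith)

lemma M₀_pos (k : ℕ) : 0 < M₀ k := by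
  unfold M₀
  split_ifs
  · norm_num
  · positivity

lemma M₀_le {k : ℕ} (hk : 2 ≤ k) : M₀ k ≤ 1 := by
  unfold M₀
  split_ifs with h
  · exact le_rfl
  · have h3 : (3 : ℝ) ≤ k := by exact_mod_cast (by omega : 3 ≤ k)
    rw [div_le_one (by linarith)]
    linarith

/-- the number of the exceptional vectors, at least four integers -/
lemma count_four {k : ℕ} (hk : 3 ≤ k) {M : ℝ} (hM : 10 / (3 * (k : ℝ) + 1) ≤ M) (ε : ℝ) (hε : 0 < ε) :
    ∃ C : ℝ, ∀ H : ℕ, 1 ≤ H → ({z : Fin k → ℤ | (∀ i, |z i| ≤ (H : ℤ)) ∧ Bad M z}.ncard : ℝ) ≤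
      C * (H : ℝ) ^ ((3 * (k : ℝ) - 2) / (3 * (k : ℝ) + 1) / M + ε) := by
  have hk0 : (0 : ℝ) < k := by exact_mod_cast (by omega : 0 < k)
  have e1 : 3 * (((k + 1 : ℕ)) : ℝ) - 2 = 3 * (k : ℝ) + 1 := by push_cast; ring
  have e2 : 3 * (((k + 1 : ℕ)) : ℝ) - 5 = 3 * (k : ℝ) - 2 := by push_cast; ring
  obtain ⟨C, hC⟩ := FewExceptions.result (k + 1) (by omega) M (by rw [e1]; exact hM) ε hε
  rw [e1, e2] at hC
  set e : ℝ := (3 * (k : ℝ) - 2) / ((3 * (k : ℝ) + 1) * M) + ε with he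
  have hee : e = (3 * (k : ℝ) - 2) / (3 * (k : ℝ) + 1) / M + ε := by rw [he, div_div]
  refine ⟨C * (k : ℝ) ^ e, fun H hH => ?_⟩
  have hkH : 1 ≤ k * H := Nat.mul_pos (by omega) hH
  have hsub : ((fun z => complete z) '' {z : Fin k → ℤ | (∀ i, |z i| ≤ (H : ℤ)) ∧ Bad M z}) ⊆
      {x : Fin (k + 1) → ℤ | FewExceptions.Admissible x ∧ (∀ i, |x i| ≤ ((k * H : ℕ) : ℤ)) ∧
        ¬ FewExceptions.Holds M x} := by
    rintro _ ⟨z, ⟨hz, ha, hb⟩, rfl⟩
    refine ⟨⟨ha.1, fun i j hij => Int.isCoprime_iff_gcd_eq_one.1 (ha.2.1 i j hij), ha.2.2⟩, fun i => ?_,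
      fun hcon => hb hcon⟩
    have h1 := complete_le (by omega) hz i
    have h2 : ((|complete z i| : ℤ) : ℝ) ≤ (((k * H : ℕ) : ℤ) : ℝ) := by
      push_cast
      exact h1
    exact_mod_cast h2
  have hfin : {x : Fin (k + 1) → ℤ | FewExceptions.Admissible x ∧ (∀ i, |x i| ≤ ((k * H : ℕ) : ℤ)) ∧
        ¬ FewExceptions.Holds M x}.Finite := by
    refine (Pool.Agent.R482.ST.finite_int (((k * H : ℕ) : ℤ) : ℝ)).subset fun x hx i => ?_
    rw [← Int.cast_abs]
    exact_mod_cast hx.2.1 i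
  have h3 := Set.ncard_le_ncard hsub hfin
  rw [Set.ncard_image_of_injective _ complete_inj] at h3
  calc ({z : Fin k → ℤ | (∀ i, |z i| ≤ (H : ℤ)) ∧ Bad M z}.ncard : ℝ)
      ≤ (FewExceptions.exceptions (k + 1) M (k * H) : ℝ) := Nat.cast_le.2 h3
    _ ≤ C * ((k * H : ℕ) : ℝ) ^ e := hC (k * H) hkH
    _ = C * (k : ℝ) ^ e * (H : ℝ) ^ ((3 * (k : ℝ) - 2) / (3 * (k : ℝ) + 1) / M + ε) := by
      rw [← hee]
      push_cast
      rw [Real.mul_rpow hk0.le (Nat.cast_nonneg H)]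
      ring

/-- the number of the exceptional vectors -/
lemma count {k : ℕ} (hk : 2 ≤ k) {M : ℝ} (hM : M₀ k ≤ M) (ε : ℝ) (hε : 0 < ε) : ∃ C : ℝ, ∀ H : ℕ, 1 ≤ H →
    ({z : Fin k → ℤ | (∀ i, |z i| ≤ (H : ℤ)) ∧ Bad M z}.ncard : ℝ) ≤ C * (H : ℝ) ^ (κ k / M + ε) := by
  unfold M₀ at hM
  unfold κ
  split_ifs at hM ⊢ with h
  · subst h
    obtain ⟨C, hC⟩ := count_radical le_rfl hM ε hε
    refine ⟨C, fun H hH => (hC H hH).trans (le_of_eq ?_)⟩
    norm_num
  · exact count_four (by omega) hM ε hε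

theorem null_of_dim {k : ℕ} (hk : 1 ≤ k) {E : Set (Fin k → ℝ)} {s : ℝ} (hs : s < k)
    (h : dimH E ≤ ENNReal.ofReal s) : volume E = 0 := by
  have h1 : dimH E < ((k : NNReal) : ENNReal) := by
    refine lt_of_le_of_lt h ?_
    rw [ENNReal.coe_natCast, ← ENNReal.ofReal_natCast]
    exact (ENNReal.ofReal_lt_ofReal_iff (by exact_mod_cast hk)).2 hs
  have h2 := hausdorffMeasure_of_dimH_lt h1
  have h3 : (μH[(Fintype.card (Fin k) : ℝ)] : Measure (Fin k → ℝ)) = volume := hausdorffMeasure_pi_real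
  rw [← h3, Fintype.card_fin]
  simpa using h2

section mono

variable {k : ℕ} {f : ℕ → ℝ → ℝ} {a τ : ℝ} {u : Fin k → ℝ}

lemma pos (hf : Starshaped a f) (hu : a < ‖u‖) (m : ℕ) : 0 < f m ‖u‖ := (hf.2 m _ _ hu le_rfl).1

lemma tail (hf : Starshaped a f) (hτ : 0 ≤ τ) (hE : ExpLe a f τ) (hu : a < ‖u‖) :
    ∃ m₁ : ℕ, ∀ m, m₁ ≤ m → 1 ≤ f m ‖u‖ := by
  have hlim := (hE ‖u‖ hu (τ + 1) (by linarith)).tendsto_atTop_zero
  obtain ⟨m₁, hm₁⟩ := Filter.eventually_atTop.1 (hlim.eventually_lt_const one_pos)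
  refine ⟨m₁, fun m hm => ?_⟩
  by_contra hcon
  rw [not_le] at hcon
  have h2 := hm₁ m hm
  have h3 : (1 : ℝ) ≤ (f m ‖u‖) ^ (-(τ + 1)) :=
    Real.one_le_rpow_of_pos_of_le_one_of_nonpos (pos hf hu m) hcon.le (by linarith)
  linarith

lemma near_mono (hf : Starshaped a f) (hu : a < ‖u‖) {θ ϑ c : ℝ} (hθ : θ ≤ ϑ) {m : ℕ} (h1 : 1 ≤ f m ‖u‖)
    {z : Fin k → ℤ} (h : Near f u θ c m z) : Near f u ϑ (max c 0) m z := by
  have hpos := pos hf hu m
  intro i
  refine (h i).trans ?_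
  calc c * (f m ‖u‖) ^ θ ≤ max c 0 * (f m ‖u‖) ^ θ :=
        mul_le_mul_of_nonneg_right (le_max_left _ _) (by positivity)
    _ ≤ max c 0 * (f m ‖u‖) ^ ϑ :=
        mul_le_mul_of_nonneg_left (Real.rpow_le_rpow_of_exponent_le h1 hθ) (le_max_right _ _)

lemma large_mono (hf : Starshaped a f) (hτ : 0 ≤ τ) (hE : ExpLe a f τ) (hu : a < ‖u‖) {M θ ϑ c : ℝ}
    (hθ : θ ≤ ϑ) (h : LargeHold f u M ϑ (max c 0)) : LargeHold f u M θ c := by
  obtain ⟨m₀, hm⟩ := h
  obtain ⟨m₁, hm₁⟩ := tail hf hτ hE hu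
  exact ⟨max m₀ m₁, fun m hmm z hz hn => hm m ((le_max_left _ _).trans hmm) z hz
    (near_mono hf hu hθ (hm₁ m ((le_max_right _ _).trans hmm)) hn)⟩

/-- the windows are finite -/
lemma finite_near (f : ℕ → ℝ → ℝ) (u : Fin k → ℝ) (θ c : ℝ) (m : ℕ) : {z : Fin k → ℤ | Near f u θ c m z}.Finite := by
  set B : ℝ := c * (f m ‖u‖) ^ θ + ∑ i, |f m ‖u‖ / ‖u‖ * u i| with hB
  refine (Pool.Agent.R482.ST.finite_int B).subset fun z hz i => ?_
  have h1 := hz i
  have h2 : |f m ‖u‖ / ‖u‖ * u i| ≤ ∑ i, |f m ‖u‖ / ‖u‖ * u i| :=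
    Finset.single_le_sum (f := fun i => |f m ‖u‖ / ‖u‖ * u i|) (fun j _ => abs_nonneg _) (Finset.mem_univ i)
  calc |(z i : ℝ)| = |((z i : ℝ) - f m ‖u‖ / ‖u‖ * u i) + f m ‖u‖ / ‖u‖ * u i| := by rw [sub_add_cancel]
    _ ≤ |(z i : ℝ) - f m ‖u‖ / ‖u‖ * u i| + |f m ‖u‖ / ‖u‖ * u i| := abs_add_le _ _
    _ ≤ B := by rw [hB]; linarith

/-- from all large `m` to all `m` -/
lemma all_of_large {M θ c : ℝ} (h : LargeHold f u M θ c) : AllHold f u θ c := by
  obtain ⟨m₀, hm⟩ := h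
  have hfin : (⋃ m ∈ Finset.range m₀, {z : Fin k → ℤ | Near f u θ c m z}).Finite :=
    Set.Finite.biUnion (Finset.finite_toSet _) fun m _ => finite_near f u θ c m
  obtain ⟨M', hM'⟩ := finite_holds hfin
  refine ⟨max M M', fun m z hz hn => ?_⟩
  rcases Nat.lt_or_ge m m₀ with h1 | h1
  · refine holds_mono (hM' z ?_ hz) (le_max_right _ _)
    simp only [Set.mem_iUnion]
    exact ⟨m, Finset.mem_range.2 h1, hn⟩
  · exact holds_mono (hm m h1 z hz hn) (le_max_left _ _)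

end mono

/-- one exponent -/
theorem fixed {k : ℕ} (hk : 2 ≤ k) {a : ℝ} {f : ℕ → ℝ → ℝ} {τ : ℝ} (hf : Starshaped a f) (hτ : 0 ≤ τ)
    (hE : ExpLe a f τ) {M θ : ℝ} (hM : M₀ k ≤ M) (hθ : θ < 1) :
    ∃ E : Set (Fin k → ℝ), dimH E ≤ ENNReal.ofReal ((κ k / M + τ) / (1 - θ)) ∧
      ∀ u : Fin k → ℝ, a < ‖u‖ → u ∉ E → ∀ c : ℝ, LargeHold f u M θ c := by
  have hs : 0 ≤ κ k / M := div_nonneg (κ_nonneg hk) ((M₀_pos k).le.trans hM)
  obtain ⟨E, hE1, hE2⟩ := Pool.Agent.R482.ST.vec_prop (ι := Fin k) (fun z _ => Bad M z)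
    (fun z X Y _ h => h) hs (fun ε hε => count hk hM ε hε) f a τ θ hf hτ hE hθ
  refine ⟨E, hE1, fun u hu huE c => ?_⟩
  obtain ⟨m₀, hm⟩ := hE2 u hu huE c
  refine ⟨m₀, fun m hm1 z hz hn => ?_⟩
  by_contra hcon
  exact hm m hm1 z hn ⟨hz, hcon⟩

/-- **Theorem.** -/
theorem result (k : ℕ) (hk : 2 ≤ k) :
    (∀ (a : ℝ) (f : ℕ → ℝ → ℝ) (τ : ℝ), Starshaped a f → 0 ≤ τ → ExpLe a f τ →
      (∀ θ : ℝ, θ < 1 → ∃ E : Set (Fin k → ℝ), dimH E ≤ ENNReal.ofReal (τ / (1 - θ)) ∧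
        ∀ u : Fin k → ℝ, a < ‖u‖ → u ∉ E → ∀ c : ℝ, AllHold f u θ c) ∧
      (∀ᵐ u : Fin k → ℝ, a < ‖u‖ → ∀ θ c : ℝ, θ < 1 - τ / k → AllHold f u θ c) ∧
      ∀ M : ℝ, M₀ k ≤ M →
        (∀ θ : ℝ, θ < 1 → ∃ E : Set (Fin k → ℝ),
          dimH E ≤ ENNReal.ofReal ((κ k / M + τ) / (1 - θ)) ∧
          ∀ u : Fin k → ℝ, a < ‖u‖ → u ∉ E → ∀ c : ℝ, LargeHold f u M θ c) ∧
        ∀ᵐ u : Fin k → ℝ, a < ‖u‖ → ∀ θ c : ℝ, θ < 1 - (κ k / M + τ) / k →
          LargeHold f u M θ c) ∧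
    (∀ (v : ℕ → ℝ) (τ : ℝ), (∀ m, 0 < v m) → (∀ t : ℝ, τ < t → Summable (fun m : ℕ => (v m) ^ (-t))) →
      Starshaped 0 (fun m x => v m * x) ∧ ExpLe 0 (fun m x => v m * x) τ) ∧
    (∀ v : ℕ → ℝ, (∀ m, 1 ≤ v m) → (∀ t : ℝ, 0 < t → Summable fun m : ℕ => Real.exp (-(t * v m))) →
      Starshaped 1 (fun m x => x ^ (v m)) ∧ ExpLe 1 (fun m x => x ^ (v m)) 0) ∧
    (∀ (a : ℝ) (g : ℝ → ℝ), 0 ≤ a → (∀ x y : ℝ, a < x → x ≤ y → g x / x ≤ g y / y) → (∀ x : ℝ, a < x → x < g x) →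
      Starshaped a (fun m x => g^[m] x) ∧ ExpLe a (fun m x => g^[m] x) 0) := by
  classical
  refine ⟨fun a f τ hf hτ hE => ?_, Pool.Agent.R482.ST.ex_mul, Pool.Agent.R482.ST.ex_pow,
    Pool.Agent.R482.ST.ex_orbit⟩
  have hk0 : (0 : ℝ) < k := by exact_mod_cast (by omega : 0 < k)
  have hκ : (0 : ℝ) ≤ κ k := κ_nonneg hk
  have hM1 : M₀ k ≤ 1 := M₀_le hk
  -- all exponents at once
  have part : ∀ θ : ℝ, θ < 1 → ∃ E : Set (Fin k → ℝ), dimH E ≤ ENNReal.ofReal (τ / (1 - θ)) ∧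
      ∀ u : Fin k → ℝ, a < ‖u‖ → u ∉ E → ∀ c : ℝ, AllHold f u θ c := by
    intro θ hθ
    choose E hE1 hE2 using fun N : ℕ => fixed hk hf hτ hE (M := (N : ℝ) + 1) (θ := θ)
      (by linarith [Nat.cast_nonneg (α := ℝ) N]) hθ
    refine ⟨⋂ N, E N, ?_, fun u hu huE c => ?_⟩
    · have hlim : Filter.Tendsto (fun N : ℕ => ENNReal.ofReal
          ((κ k / ((N : ℝ) + 1) + τ) / (1 - θ))) Filter.atTop
          (nhds (ENNReal.ofReal ((0 + τ) / (1 - θ)))) := by
        refine ENNReal.tendsto_ofReal (Filter.Tendsto.div_const (Filter.Tendsto.add_const _ ?_) _)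
        exact Filter.Tendsto.div_atTop tendsto_const_nhds
          (Filter.tendsto_atTop_add_const_right _ _ tendsto_natCast_atTop_atTop)
      rw [zero_add] at hlim
      exact ge_of_tendsto hlim (Filter.Eventually.of_forall fun N =>
        (dimH_mono (Set.iInter_subset _ N)).trans (hE1 N))
    · rw [Set.mem_iInter] at huE
      push Not at huE
      obtain ⟨N, hN⟩ := huE
      exact all_of_large (hE2 N u hu hN c)
  refine ⟨part, ?_, fun M hM => ⟨fun θ hθ => fixed hk hf hτ hE hM hθ, ?_⟩⟩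
  · -- almost all `u`, some exponent
    choose E hE1 hE2 using fun (p : ℕ) (θ : ℝ) (hθ : θ < 1) => fixed hk hf hτ hE (M := (p : ℝ) + 1)
      (by linarith [Nat.cast_nonneg (α := ℝ) p]) hθ
    have hae : ∀ p : ℕ × ℚ, ∀ᵐ u : Fin k → ℝ, a < ‖u‖ →
        (p.2 : ℝ) < 1 - (κ k / ((p.1 : ℝ) + 1) + τ) / k →
        ∀ c, LargeHold f u ((p.1 : ℝ) + 1) p.2 c := by
      rintro ⟨N, θ⟩
      by_cases hθ : (θ : ℝ) < 1 - (κ k / ((N : ℝ) + 1) + τ) / k
      · have h0 : 0 ≤ (κ k / ((N : ℝ) + 1) + τ) / k := by positivity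
        have h1 : (θ : ℝ) < 1 := by linarith
        have h2 : (κ k / ((N : ℝ) + 1) + τ) / (1 - θ) < k := by
          rw [div_lt_iff₀ (by linarith)]
          have h3 : (κ k / ((N : ℝ) + 1) + τ) / k < 1 - θ := by linarith
          rw [div_lt_iff₀ hk0] at h3
          linarith
        have h3 : volume (E N θ h1) = 0 := null_of_dim (by omega) h2 (hE1 N θ h1)
        filter_upwards [compl_mem_ae_iff.2 h3] with u hu hau _ c
        exact hE2 N θ h1 u hau hu c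
      · exact Filter.Eventually.of_forall fun u _ h => absurd h hθ
    filter_upwards [ae_all_iff.2 hae] with u hu hau θ c hθ
    obtain ⟨ϑ, h1, h2⟩ := exists_rat_btwn hθ
    have hlim : Filter.Tendsto (fun N : ℕ => 1 - (κ k / ((N : ℝ) + 1) + τ) / k)
        Filter.atTop (nhds (1 - (0 + τ) / k)) := by
      refine Filter.Tendsto.const_sub _ (Filter.Tendsto.div_const (Filter.Tendsto.add_const _ ?_) _)
      exact Filter.Tendsto.div_atTop tendsto_const_nhds
        (Filter.tendsto_atTop_add_const_right _ _ tendsto_natCast_atTop_atTop)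
    rw [zero_add] at hlim
    obtain ⟨N, hN⟩ := (hlim.eventually_const_lt h2).exists
    exact all_of_large (large_mono hf hτ hE hau h1.le (hu (N, ϑ) hau hN (max c 0)))
  · -- almost all `u`, a given exponent
    choose E hE1 hE2 using fun θ => fixed hk hf hτ hE hM (θ := θ)
    have hae : ∀ p : ℚ, ∀ᵐ u : Fin k → ℝ, a < ‖u‖ →
        (p : ℝ) < 1 - (κ k / M + τ) / k → ∀ c, LargeHold f u M p c := by
      intro θ
      by_cases hθ : (θ : ℝ) < 1 - (κ k / M + τ) / k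
      · have hM0 : 0 < M := (M₀_pos k).trans_le hM
        have h0 : 0 ≤ (κ k / M + τ) / k := by positivity
        have h1 : (θ : ℝ) < 1 := by linarith
        have h2 : (κ k / M + τ) / (1 - θ) < k := by
          rw [div_lt_iff₀ (by linarith)]
          have h3 : (κ k / M + τ) / k < 1 - θ := by linarith
          rw [div_lt_iff₀ hk0] at h3
          linarith
        have h3 : volume (E θ h1) = 0 := null_of_dim (by omega) h2 (hE1 θ h1)
        filter_upwards [compl_mem_ae_iff.2 h3] with u hu hau _ c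
        exact hE2 θ h1 u hau hu c
      · exact Filter.Eventually.of_forall fun u _ h => absurd h hθ
    filter_upwards [ae_all_iff.2 hae] with u hu hau θ c hθ
    obtain ⟨ϑ, h1, h2⟩ := exists_rat_btwn hθ
    exact large_mono hf hτ hE hau h1.le (hu ϑ hau h2 (max c 0))

end Pool.Agent.Results.MP_7ecdd4_nt.StarshapedTuples
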