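import Pool.Agent.V5helper53.TM.Final

/-!
# The strong `n`-conjecture: more exceptions than expected

For `M > 1 / n` the expected number of the `n`-tuples of pairwise coprime nonzero integers with sum
zero and `height ≤ X` which violate `height ≤ rad ^ M` is `X ^ (1 / M - 1 + o(1))` if `M ≤ 1`, and this
is a theorem (starting file `SecondOrderTerm`) for `1 / n < M < 3 / (3 n - 1)`. Here it is shown that for
`n ≥ 4` there are more exceptions, by a positive power of `X`, for all `M` in the intervals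

* `1 / (n - 3) < M < 5 / 3` for odd `n`,
* `1 / (n - 4) < M < 7 / 5` for even `n ≥ 6`,
* `9 / 10 < M < 9 / 7` for `n = 4`.

Method. For odd `n` and `M < 1` we take three entries `(X + 1) ^ D`, `-(X - 1) ^ D`, `-2 D X ^ (D - 1)`,
with sum `O(X ^ (D - 3))` (`OddBlk.lean`), where `D` is large, and `n - 3` entries without special
properties, all but one of them of size `X ^ θ` with `θ < D - 3` (`Sieve.lean`, `Sieve2.lean`,
`Count.lean`). The three entries have radicals of total size `X ^ 3`, and such triples with so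
small a sum are much more frequent than random ones. For even `n` all entries must be odd. Here we take
four entries `(m + 2 G P) ^ D`, `-(m - 2 G P) ^ D`, `-(9 D m + 2 G) ^ (D - 1)`,
`-D P (m - 6 G D P ^ 2) ^ (D - 1)`, where `D = 3 f + 1`, `f` even, `P = 3 (9 D) ^ (f - 1)`,
`4 G = 27 D ^ 2 P ^ 2 + 1`; they are odd and pairwise coprime for the `m` in a residue class, and their
sum is `O(m ^ (D - 4))` (`Par.lean`, `EvenBlk.lean`). For `M ≥ 1` (and for `n = 4`) we use the three
polynomial identities of the starting files with `X = g ^ j m` (`Fam.lean`, `Inst.lean`).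
-/

set_option autoImplicit false

namespace Pool.Agent.Results.MP_7ecdd4_nt.TooManyExceptions

open Finset Filter Topology

/-- the tuples of the problem: pairwise coprime nonzero integers with sum zero -/
def Admissible {n : ℕ} (x : Fin n → ℤ) : Prop :=
  (∀ i, x i ≠ 0) ∧ (∀ i j, i ≠ j → Int.gcd (x i) (x j) = 1) ∧ ∑ i, x i = 0

/-- No sub-sum over a non-empty proper set of indices vanishes. -/
def NoVanishingSubsum {n : ℕ} (x : Fin n → ℤ) : Prop :=
  ∀ S : Finset (Fin n), S.Nonempty → S ≠ univ → ∑ i ∈ S, x i ≠ 0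

/-- the product of the primes that divide `a` -/
def rad (a : ℤ) : ℕ := ∏ p ∈ a.natAbs.primeFactors, p

/-- `max |x_i|` -/
def height {n : ℕ} (x : Fin n → ℤ) : ℕ := univ.sup fun i => (x i).natAbs

/-- the admissible tuples without vanishing proper sub-sums and with `max |x_i| ≤ X` that violate
`max |x_i| ≤ K rad (x_1 ⋯ x_n) ^ M` -/
def Exceptions (n : ℕ) (M K X : ℝ) : Set (Fin n → ℤ) :=
  {x | Admissible x ∧ NoVanishingSubsum x ∧ (height x : ℝ) ≤ X ∧
    K * (rad (∏ i, x i) : ℝ) ^ M < height x}

/-- the lower end of the interval of the exponents `M` -/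
noncomputable def lower (n : ℕ) : ℝ :=
  if n = 4 then 9 / 10 else if Odd n then 1 / (n - 3) else 1 / (n - 4)

/-- the upper end of the interval of the exponents `M` -/
noncomputable def upper (n : ℕ) : ℝ := if n = 4 then 9 / 7 else if Odd n then 5 / 3 else 7 / 5

/-- the gain in the exponent of `X` -/
noncomputable def gain (n : ℕ) (M : ℝ) : ℝ :=
  if n = 4 then (if M < 1 then 10 / 9 - 1 / M else min (1 / 9) (1 / M - 7 / 9))
  else if Odd n then
    (if M < 1 then (n - 3 - 1 / M) / (5 * (n - 4)) else min (1 / 5) (1 / M - 3 / 5))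
  else (if M < 1 then (n - 4 - 1 / M) / (10 * (n - 5)) else min (1 / 7) (1 / M - 5 / 7))

theorem height_le {n : ℕ} {x : Fin n → ℤ} {X : ℝ} (hX : 0 ≤ X) :
    (height x : ℝ) ≤ X ↔ ∀ i, |((x i : ℤ) : ℝ)| ≤ X := by
  have h1 : ∀ i, |((x i : ℤ) : ℝ)| = (((x i).natAbs : ℕ) : ℝ) := fun i => by
    rw [Nat.cast_natAbs, Int.cast_abs]
  simp only [h1]
  constructor
  · intro h i
    refine le_trans ?_ h
    exact_mod_cast Finset.le_sup (f := fun i => (x i).natAbs) (mem_univ i)
  · intro h
    have h2 : height x ≤ ⌊X⌋₊ := Finset.sup_le fun i _ => Nat.le_floor (h i)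
    exact le_trans (by exact_mod_cast h2) (Nat.floor_le hX)

theorem finite (n : ℕ) (M K X : ℝ) : (Exceptions n M K X).Finite := by
  rcases lt_or_ge X 0 with hX | hX
  · refine Set.Finite.subset Set.finite_empty fun x hx => ?_
    have h1 := hx.2.2.1
    have h2 : (0 : ℝ) ≤ height x := Nat.cast_nonneg _
    exact absurd (h2.trans h1) (not_le.2 hX)
  · refine Set.Finite.subset (Set.finite_Icc (fun _ => -(⌊X⌋₊ : ℤ)) (fun _ => (⌊X⌋₊ : ℤ)))
      fun x hx => ?_
    have h1 := (height_le hX).1 hx.2.2.1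
    have h2 : ∀ i, |x i| ≤ (⌊X⌋₊ : ℤ) := by
      intro i
      have h3 : (((x i).natAbs : ℕ) : ℝ) ≤ X := by
        have := h1 i
        rwa [← Int.cast_abs, Int.abs_eq_natAbs, Int.cast_natCast] at this
      have h4 := Nat.le_floor h3
      rw [Int.abs_eq_natAbs]
      exact_mod_cast h4
    rw [Set.mem_Icc, Pi.le_def, Pi.le_def]
    exact ⟨fun i => (abs_le.1 (h2 i)).1, fun i => (abs_le.1 (h2 i)).2⟩

theorem gain_pos (n : ℕ) (hn : 4 ≤ n) (M : ℝ) (h1 : lower n < M) (h2 : M < upper n) :
    0 < M ∧ 0 < gain n M := by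
  unfold lower at h1
  unfold upper at h2
  unfold gain
  by_cases h4 : n = 4
  · rw [if_pos h4] at h1 h2 ⊢
    have hM0 : 0 < M := by linarith
    refine ⟨hM0, ?_⟩
    split_ifs with hM
    · have : 1 / M < 10 / 9 := by rw [div_lt_iff₀ hM0]; linarith
      linarith
    · refine lt_min (by norm_num) ?_
      have : 7 / 9 < 1 / M := by rw [lt_div_iff₀ hM0]; linarith
      linarith
  · rw [if_neg h4] at h1 h2 ⊢
    have hn5 : (5 : ℝ) ≤ n := by
      have : 5 ≤ n := by omega
      exact_mod_cast this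
    by_cases ho : Odd n
    · rw [if_pos ho] at h1 h2 ⊢
      have hn3 : (0 : ℝ) < n - 3 := by linarith
      have hM0 : 0 < M := lt_trans (by positivity) h1
      refine ⟨hM0, ?_⟩
      split_ifs with hM
      · have h3 : 1 / M < n - 3 := by
          rw [div_lt_iff₀ hn3] at h1
          rw [div_lt_iff₀ hM0]; linarith
        apply div_pos <;> linarith
      · refine lt_min (by norm_num) ?_
        have : 3 / 5 < 1 / M := by rw [lt_div_iff₀ hM0]; linarith
        linarith
    · rw [if_neg ho] at h1 h2 ⊢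
      have hn6 : (6 : ℝ) ≤ n := by
        have h6 : n ≠ 5 := by rintro rfl; exact ho (by decide)
        have : 6 ≤ n := by omega
        exact_mod_cast this
      have hn3 : (0 : ℝ) < n - 4 := by linarith
      have hM0 : 0 < M := lt_trans (by positivity) h1
      refine ⟨hM0, ?_⟩
      split_ifs with hM
      · have h3 : 1 / M < n - 4 := by
          rw [div_lt_iff₀ hn3] at h1
          rw [div_lt_iff₀ hM0]; linarith
        apply div_pos <;> linarith
      · refine lt_min (by norm_num) ?_
        have : 5 / 7 < 1 / M := by rw [lt_div_iff₀ hM0]; linarith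
        linarith

theorem many (n : ℕ) (hn : 4 ≤ n) (M δ : ℝ) (hM : 0 < M) (hδ : 0 ≤ δ) (h : δ < gain n M) :
    Pool.Agent.V5helper53.TM.Many n M (max 0 (1 / M - 1)) δ := by
  unfold gain at h
  by_cases h4 : n = 4
  · subst h4
    rw [if_pos rfl] at h
    exact Pool.Agent.V5helper53.TM.many_four hM hδ h
  · rw [if_neg h4] at h
    by_cases ho : Odd n
    · rw [if_pos ho] at h
      exact Pool.Agent.V5helper53.TM.many_odd' (by omega) ho hM hδ h
    · rw [if_neg ho] at h
      have h6 : n ≠ 5 := by rintro rfl; exact ho (by decide)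
      exact Pool.Agent.V5helper53.TM.many_even' (by omega) (Nat.not_odd_iff_even.1 ho) hM hδ h

/-- **Theorem.** Let `n ≥ 4` and `lower n < M < upper n`. Then `gain n M > 0`, and for every
`δ < gain n M`, every `K` and all large `X` the number of the `n`-tuples of pairwise coprime nonzero
integers with sum zero, without vanishing proper sub-sum, and with
`K rad (x_1 ⋯ x_n) ^ M < max |x_i| ≤ X` is (finite and) at least `X ^ (max 0 (1 / M - 1) + δ)`. -/
theorem result (n : ℕ) (hn : 4 ≤ n) (M : ℝ) (h1 : lower n < M) (h2 : M < upper n) :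
    0 < gain n M ∧ ∀ δ : ℝ, δ < gain n M → ∀ K : ℝ, (∀ X : ℝ, (Exceptions n M K X).Finite) ∧
      ∀ᶠ X : ℝ in atTop, X ^ (max 0 (1 / M - 1) + δ) ≤ ((Exceptions n M K X).ncard : ℝ) := by
  obtain ⟨hM, hg⟩ := gain_pos n hn M h1 h2
  refine ⟨hg, fun δ hδ K => ⟨finite n M K, ?_⟩⟩
  have h := many n hn M (max 0 δ) hM (le_max_left _ _) (max_lt hg hδ)
  filter_upwards [h (max K 1) (by positivity), eventually_ge_atTop 1] with X hX hX1
  have hX0 : 0 ≤ X := by linarith
  obtain ⟨F, hF, hc⟩ := hX
  have hle : X ^ (max 0 (1 / M - 1) + δ) ≤ X ^ (max 0 (1 / M - 1) + max 0 δ) :=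
    Real.rpow_le_rpow_of_exponent_le hX1 (by have := le_max_right 0 δ; linarith)
  refine hle.trans (hc.trans ?_)
  have hsub : (F : Set (Fin n → ℤ)) ⊆ Exceptions n M K X := by
    intro x hx
    obtain ⟨a1, a2, a3, j, a4⟩ := hF x hx
    refine ⟨a1, a2, (height_le hX0).2 a3, ?_⟩
    have h3 : (rad (∏ i, x i) : ℝ) = (Pool.Agent.TH285.SN.rad x : ℝ) := rfl
    rw [h3]
    have h4 : |((x j : ℤ) : ℝ)| ≤ height x := (height_le (Nat.cast_nonneg _)).1 le_rfl j
    refine lt_of_lt_of_le (lt_of_le_of_lt ?_ a4) h4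
    have h5 : (0 : ℝ) ≤ (Pool.Agent.TH285.SN.rad x : ℝ) ^ M := by positivity
    exact mul_le_mul_of_nonneg_right (le_max_left _ _) h5
  have h3 := Set.ncard_le_ncard hsub (finite n M K X)
  rw [Set.ncard_coe_finset] at h3
  exact_mod_cast h3

end Pool.Agent.Results.MP_7ecdd4_nt.TooManyExceptions
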